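import Pool.Agent.H6.FB.Stmts

/-!
# Project FB: the category argument (SEQ)
-/

set_option autoImplicit false

open Metric Set Filter Topology

namespace Pool.Agent.H6.FB

/-- Cauchy estimate for the Frechet derivative -/
lemma seq_norm_fderiv_le {E F : Type*} [NormedAddCommGroup E] [NormedSpace ℂ E]
    [NormedAddCommGroup F] [NormedSpace ℂ F] {f : E → F} {q : E} {r M : ℝ} (hr : 0 < r)
    (hf : DifferentiableOn ℂ f (ball q r)) (hM : ∀ m ∈ ball q r, ‖f m‖ ≤ M) :
    ‖fderiv ℂ f q‖ ≤ 2 * M / r := by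
  refine Complex.norm_fderiv_le_div_of_mapsTo_ball hf ?_ hr
  intro m hm
  rw [mem_closedBall, dist_eq_norm]
  calc ‖f m - f q‖ ≤ ‖f m‖ + ‖f q‖ := norm_sub_le _ _
    _ ≤ M + M := add_le_add (hM m hm) (hM q (mem_ball_self hr))
    _ = 2 * M := by ring

/-- locally uniform limits of holomorphic functions -/
theorem seq_limit {E F : Type*} [NormedAddCommGroup E] [NormedSpace ℂ E]
    [NormedAddCommGroup F] [NormedSpace ℂ F] [CompleteSpace F] [ProperSpace E] {ι : Type*}
    {l : Filter ι} [l.NeBot]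
    {f : ι → E → F} {g : E → F} {U : Set E} (hU : IsOpen U)
    (hf : ∀ᶠ i in l, DifferentiableOn ℂ (f i) U) (hlim : TendstoLocallyUniformlyOn f g l U) :
    DifferentiableOn ℂ g U := by
  intro x hx
  refine DifferentiableAt.differentiableWithinAt ?_
  obtain ⟨r, hr, hrU⟩ := Metric.nhds_basis_closedBall.mem_iff.1 (hU.mem_nhds hx)
  have hunif : TendstoUniformlyOn f g l (closedBall x r) :=
    (tendstoLocallyUniformlyOn_iff_forall_isCompact hU).1 hlim _ hrU (isCompact_closedBall x r)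
  have hr2 : 0 < r / 2 := by linarith
  have hsub : ∀ y ∈ ball x (r / 2), ball y (r / 2) ⊆ closedBall x r := by
    intro y hy z hz
    rw [mem_ball] at hy hz
    rw [mem_closedBall]
    linarith [dist_triangle z y x]
  -- the derivatives are uniformly Cauchy
  have hC : UniformCauchySeqOn (fun i => fderiv ℂ (f i)) l (ball x (r / 2)) := by
    intro u hu
    obtain ⟨ε, hε, hεu⟩ := Metric.mem_uniformity_dist.1 hu
    have h1 : ∀ᶠ i in l, ∀ y ∈ closedBall x r, dist (g y) (f i y) < ε * r / 16 :=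
      Metric.tendstoUniformlyOn_iff.1 hunif _ (by positivity)
    have h2 := h1.and hf
    have h3 : ∀ᶠ m : ι × ι in l ×ˢ l, ((∀ y ∈ closedBall x r, dist (g y) (f m.1 y) < ε * r / 16) ∧
        DifferentiableOn ℂ (f m.1) U) ∧ ((∀ y ∈ closedBall x r, dist (g y) (f m.2 y) < ε * r / 16) ∧
        DifferentiableOn ℂ (f m.2) U) := h2.prod_mk h2
    filter_upwards [h3] with m hm y hy
    obtain ⟨⟨a1, a2⟩, b1, b2⟩ := hm
    apply hεu
    have hyU : y ∈ U := hrU (hsub y hy (mem_ball_self hr2))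
    have hd1 : DifferentiableAt ℂ (f m.1) y := a2.differentiableAt (hU.mem_nhds hyU)
    have hd2 : DifferentiableAt ℂ (f m.2) y := b2.differentiableAt (hU.mem_nhds hyU)
    rw [dist_eq_norm]
    have h4 : fderiv ℂ (f m.1) y - fderiv ℂ (f m.2) y = fderiv ℂ (f m.1 - f m.2) y := by
      rw [fderiv_sub hd1 hd2]
    rw [h4]
    have h5 : ‖fderiv ℂ (f m.1 - f m.2) y‖ ≤ 2 * (ε * r / 8) / (r / 2) := by
      refine seq_norm_fderiv_le hr2 ?_ ?_
      · exact ((a2.sub b2).mono ((hsub y hy).trans hrU))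
      · intro z hz
        have c1 := a1 z (hsub y hy hz)
        have c2 := b1 z (hsub y hy hz)
        have : dist (f m.1 z) (f m.2 z) ≤ dist (g z) (f m.1 z) + dist (g z) (f m.2 z) := by
          rw [dist_comm (g z) (f m.1 z)]; exact dist_triangle _ _ _
        rw [Pi.sub_apply, ← dist_eq_norm]
        linarith
    have h6 : 2 * (ε * r / 8) / (r / 2) = ε / 2 := by field_simp; ring
    rw [h6] at h5
    linarith
  have hex : ∀ y ∈ ball x (r / 2), ∃ L : E →L[ℂ] F, Tendsto (fun i => fderiv ℂ (f i) y) l (𝓝 L) := by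
    intro y hy
    have : Cauchy (l.map (fun i => fderiv ℂ (f i) y)) := by
      rw [cauchy_map_iff]
      refine ⟨inferInstance, ?_⟩
      intro u hu
      exact (hC u hu).mono (fun m hm => hm y hy)
    exact CompleteSpace.complete this
  choose! L hL using hex
  have hun : TendstoUniformlyOn (fun i => fderiv ℂ (f i)) L l (ball x (r / 2)) :=
    hC.tendstoUniformlyOn_of_tendsto hL
  have hxb : ball x (r / 2) ∈ 𝓝 x := ball_mem_nhds _ hr2
  refine (hasFDerivAt_of_tendstoUniformlyOnFilter (𝕜 := ℂ) (l := l) (f := f)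
    (f' := fun i => fderiv ℂ (f i)) (g := g) (g' := L) (x := x) ?_ ?_ ?_).differentiableAt
  · exact (tendstoUniformlyOn_iff_tendstoUniformlyOnFilter.1 hun).mono_right
      (Filter.le_principal_iff.2 hxb)
  · have h1 : ∀ᶠ y in 𝓝 x, y ∈ U := hU.mem_nhds hx
    filter_upwards [hf.prod_mk h1] with m hm
    exact (hm.1.differentiableAt (hU.mem_nhds hm.2)).hasFDerivAt
  · filter_upwards [hxb] with y hy
    refine hunif.tendsto_at (hsub x (mem_ball_self hr2) hy)

/-- SEQ -/
theorem seq_thm : SEQStmt := by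
  intro E _ _ _ P hP F hF ε hε
  haveI : ProperSpace E := FiniteDimensional.proper ℂ E
  haveI : CompleteSpace E := FiniteDimensional.complete ℂ E
  have step : ∀ (k : ℕ) (s : {p : (E → E) × ℝ // Good p.1 ∧ 0 < p.2}),
      ∃ s' : {p : (E → E) × ℝ // Good p.1 ∧ 0 < p.2},
        (∀ z ∈ closedBall (0 : E) 1, ‖s'.1.1 z - s.1.1 z‖ < s.1.2 / 4) ∧ s'.1.2 ≤ s.1.2 / 2 ∧
          ∀ f : E → E, Nice f → (∀ z ∈ closedBall (0 : E) 1, ‖f z - s'.1.1 z‖ < s'.1.2) →
            P k f := by
    rintro k ⟨⟨G, e⟩, hG, he⟩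
    obtain ⟨F', hF', h1, η, hη, h2⟩ := hP k G hG (e / 4) (by simp only at he; linarith)
    refine ⟨⟨(F', min (e / 2) η), hF', ?_⟩, h1, min_le_left _ _, ?_⟩
    · simp only at he
      exact lt_min (by linarith) hη
    · intro f hf hz
      exact h2 f hf (fun z hz' => (hz z hz').trans_le (min_le_right _ _))
  choose nxt h1 h2 h3 using step
  obtain ⟨s, hs0, hs⟩ : ∃ s : ℕ → {p : (E → E) × ℝ // Good p.1 ∧ 0 < p.2},
      s 0 = ⟨(F, ε), hF, hε⟩ ∧ ∀ k, s (k + 1) = nxt k (s k) :=
    ⟨fun k => Nat.rec ⟨(F, ε), hF, hε⟩ (fun k t => nxt k t) k, rfl, fun k => rfl⟩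
  have a1 : ∀ k, ∀ z ∈ closedBall (0 : E) 1, ‖(s (k + 1)).1.1 z - (s k).1.1 z‖ < (s k).1.2 / 4 := by
    intro k
    rw [hs k]
    exact h1 k (s k)
  have a2 : ∀ k, (s (k + 1)).1.2 ≤ (s k).1.2 / 2 := by
    intro k
    rw [hs k]
    exact h2 k (s k)
  have a3 : ∀ k, ∀ f : E → E, Nice f →
      (∀ z ∈ closedBall (0 : E) 1, ‖f z - (s (k + 1)).1.1 z‖ < (s (k + 1)).1.2) → P k f := by
    intro k
    rw [hs k]
    exact h3 k (s k)
  have pos : ∀ k, 0 < (s k).1.2 := fun k => (s k).2.2
  have tele : ∀ k n, ∀ z ∈ closedBall (0 : E) 1,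
      ‖(s (k + n)).1.1 z - (s k).1.1 z‖ ≤ ((s k).1.2 - (s (k + n)).1.2) / 2 := by
    intro k n
    induction n with
    | zero => intro z _; simp
    | succ n ih =>
      intro z hz
      have b1 := ih z hz
      have b2 := a1 (k + n) z hz
      have b3 := a2 (k + n)
      have b4 : (s (k + (n + 1))).1.1 z - (s k).1.1 z =
          ((s (k + n + 1)).1.1 z - (s (k + n)).1.1 z) + ((s (k + n)).1.1 z - (s k).1.1 z) := by
        rw [← add_assoc]
        abel
      have b5 : ‖(s (k + (n + 1))).1.1 z - (s k).1.1 z‖ ≤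
          ‖(s (k + n + 1)).1.1 z - (s (k + n)).1.1 z‖ + ‖(s (k + n)).1.1 z - (s k).1.1 z‖ := by
        rw [b4]
        exact norm_add_le _ _
      rw [← add_assoc] at b5 ⊢
      linarith
  have small : ∀ k, (s k).1.2 ≤ ε * (1 / 2) ^ k := by
    intro k
    induction k with
    | zero => rw [hs0]; simp
    | succ k ih =>
      have := a2 k
      rw [pow_succ]
      linarith
  have lim0 : Tendsto (fun k => (s k).1.2) atTop (𝓝 0) := by
    have h4 : Tendsto (fun k : ℕ => ε * (1 / 2 : ℝ) ^ k) atTop (𝓝 (ε * 0)) :=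
      (tendsto_pow_atTop_nhds_zero_of_lt_one (by norm_num) (by norm_num)).const_mul ε
    rw [mul_zero] at h4
    exact squeeze_zero (fun k => (pos k).le) small h4
  have dk : ∀ k m, k ≤ m → ∀ z ∈ closedBall (0 : E) 1,
      ‖(s m).1.1 z - (s k).1.1 z‖ ≤ (s k).1.2 / 2 := by
    intro k m hkm z hz
    obtain ⟨n, rfl⟩ := Nat.exists_eq_add_of_le hkm
    have := tele k n z hz
    have := pos (k + n)
    linarith
  have hex : ∀ z ∈ closedBall (0 : E) 1, ∃ y : E, Tendsto (fun k => (s k).1.1 z) atTop (𝓝 y) := by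
    intro z hz
    apply cauchySeq_tendsto_of_complete
    refine cauchySeq_of_le_tendsto_0 (fun k => (s k).1.2) ?_ lim0
    intro n m N hn hm
    rw [dist_eq_norm]
    have e1 := dk N n hn z hz
    have e2 := dk N m hm z hz
    have e3 : (s n).1.1 z - (s m).1.1 z =
        ((s n).1.1 z - (s N).1.1 z) - ((s m).1.1 z - (s N).1.1 z) := by abel
    rw [e3]
    refine (norm_sub_le _ _).trans ?_
    linarith
  choose! f hf using hex
  have hfk : ∀ k, ∀ z ∈ closedBall (0 : E) 1, ‖f z - (s k).1.1 z‖ ≤ (s k).1.2 / 2 := by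
    intro k z hz
    have e1 : Tendsto (fun m => ‖(s m).1.1 z - (s k).1.1 z‖) atTop (𝓝 ‖f z - (s k).1.1 z‖) :=
      ((hf z hz).sub_const _).norm
    refine le_of_tendsto e1 ?_
    filter_upwards [eventually_ge_atTop k] with m hm
    exact dk k m hm z hz
  have hunif : TendstoUniformlyOn (fun k => (s k).1.1) f atTop (closedBall (0 : E) 1) := by
    rw [Metric.tendstoUniformlyOn_iff]
    intro e he
    filter_upwards [lim0.eventually_lt_const he] with k hk z hz
    rw [dist_eq_norm]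
    have := hfk k z hz
    have := pos k
    linarith
  have hcont : ∀ k, ContinuousOn (s k).1.1 (closedBall (0 : E) 1) := by
    intro k
    obtain ⟨U, hU, hUs, hd, _⟩ := (s k).2.1
    exact (hd.mono hUs).continuousOn
  have hdiff : ∀ k, DifferentiableOn ℂ (s k).1.1 (ball (0 : E) 1) := by
    intro k
    obtain ⟨U, hU, hUs, hd, _⟩ := (s k).2.1
    exact hd.mono (ball_subset_closedBall.trans hUs)
  have hnice : Nice f := by
    refine ⟨hunif.continuousOn (Frequently.of_forall hcont), ?_⟩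
    exact seq_limit isOpen_ball (Eventually.of_forall hdiff)
      (hunif.mono ball_subset_closedBall).tendstoLocallyUniformlyOn
  refine ⟨f, hnice, ?_, ?_⟩
  · intro z hz
    have := hfk 0 z hz
    rw [hs0] at this
    simp only at this
    linarith
  · intro k
    refine a3 k f hnice ?_
    intro z hz
    have := hfk (k + 1) z hz
    have := pos (k + 1)
    linarith

end Pool.Agent.H6.FB
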